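import Pool.Agent.H88.WPD.Final

/-!
Part (b): the coarse stabilisers of (x, w_n x) have bounded size with exponential decay, for
every countable non-elementary WPD measure (no boundedness is needed).
-/

namespace Pool.Agent.Results.MP_6d2fbd_pr.ExponentialStab

open Pool.Agent.H88.WPD

theorem result (X : Type*) [MetricSpace X] (G : Type*) [Group G] [MulAction G X]
    [IsIsometricSMul G X] (δ : ℝ) (hX : Hyp X δ) (μ : PMF G) (hμ : NonElementary X μ)
    (hw : ∃ h ∈ Subsemigroup.closure μ.support, WPD X h) (x : X) (K : ℝ) (hK : 0 ≤ K) :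
    ∃ N : ℕ, ∃ B c : ℝ, 0 < B ∧ 0 < c ∧ c < 1 ∧
      ∀ n : ℕ, 1 - B * c ^ n ≤ Pr (walk μ n) {g | (Stab G K x (g • x)).encard ≤ N} :=
  partB hX μ hμ hw x K hK

end Pool.Agent.Results.MP_6d2fbd_pr.ExponentialStab
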