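import Pool.Agent.H88.WPD.FinE

/-!
Q1 in full: the statements (a), (b) and (c) hold, all three with exponential decay.
-/

namespace Pool.Agent.Results.MP_6d2fbd_pr.FullAnswer

open Pool.Agent.H88.WPD

theorem result (X : Type*) [MetricSpace X] (G : Type*) [Group G] [MulAction G X]
    [IsIsometricSMul G X] (δ : ℝ) (hX : Hyp X δ) (μ : PMF G) (hμ : NonElementary X μ)
    (hw : ∃ h ∈ Subsemigroup.closure μ.support, WPD X h) :
    (∃ B c : ℝ, 0 < B ∧ 0 < c ∧ c < 1 ∧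
      ∀ n : ℕ, 1 - B * c ^ n ≤ Pr (walk μ n) {g | WPD X g}) ∧
    (∀ (x : X) (K : ℝ), 0 ≤ K → ∃ N : ℕ, ∃ B c : ℝ, 0 < B ∧ 0 < c ∧ c < 1 ∧
      ∀ n : ℕ, 1 - B * c ^ n ≤ Pr (walk μ n) {g | (Stab G K x (g • x)).encard ≤ N}) ∧
    (Geod X → Reversible μ → (∃ (x : X) (R : ℝ), ∀ g ∈ μ.support, dist x (g • x) ≤ R) →
      (FixLim X (Subgroup.closure μ.support)).Finite ∧
      0 < charIndex X hX (Subgroup.closure μ.support) ∧
      ∃ B c : ℝ, 0 < B ∧ 0 < c ∧ c < 1 ∧ ∀ n : ℕ, 1 - B * c ^ n ≤ Pr (walk μ n)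
        {w | IsFreeGroup (Subgroup.normalClosure
          {w ^ charIndex X hX (Subgroup.closure μ.support)})}) :=
  ⟨partA hX μ hμ hw, fun x K hK => partB hX μ hμ hw x K hK, fun hgeo hrev hbd =>
    ⟨(emu_fin hX μ hμ hw).1, (emu_fin hX μ hμ hw).2, partC hX hgeo μ hμ hw hrev hbd⟩⟩

end Pool.Agent.Results.MP_6d2fbd_pr.FullAnswer
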